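import Pool.Agent.Y142.SV.Stm
import Pool.Agent.Y155.ZI.Tens
import Pool.Agent.Y100.ZS.Tenss
import Pool.Agent.TH125.Nod.Fft2

/-! # The first fundamental theorem for products of orthogonal and symplectic groups
(task FFTV of the project Y142-SV)

The first two theorems and the plan of the last one are taken from the file Fftu of Y468. -/

set_option autoImplicit false
set_option linter.unusedSectionVars false

open Matrix
open Pool.Agent.Y142.ZO (bil)
namespace Pool.Agent.Y710.SV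

/-- a reduced commutative finite-dimensional algebra over an algebraically closed field is a
product of copies of the field -/
theorem idemAbs (F : Type) [Field F] [IsAlgClosed F] (C : Type) [CommRing C] [Algebra F C]
    [Module.Finite F C] [IsReduced C] :
    ∃ (T : Type) (_ : Fintype T) (E : T → C),
      (∀ t, E t * E t = E t) ∧ (∀ t, E t ≠ 0) ∧ (∀ s t, s ≠ t → E s * E t = 0) ∧
      ∑ t, E t = 1 ∧ ∀ (A : C) (t : T), ∃ c : F, A * E t = c • E t := by
  classical
  haveI : IsArtinianRing C := IsArtinianRing.of_finite F C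
  letI : Fintype (MaximalSpectrum C) := Fintype.ofFinite _
  let e := IsArtinianRing.equivPi C
  have hE : ∀ t : MaximalSpectrum C, e (e.symm (Pi.single t 1)) = Pi.single t 1 :=
    fun t => e.apply_symm_apply _
  refine ⟨MaximalSpectrum C, inferInstance, fun t => e.symm (Pi.single t 1), ?_, ?_, ?_, ?_, ?_⟩
  · intro t
    apply e.injective
    rw [map_mul, hE, ← Pi.single_mul, one_mul]
  · intro t h
    have h1 := hE t
    have h' : e.symm (Pi.single t 1) = 0 := h
    rw [h', map_zero] at h1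
    have h2 := congrFun h1 t
    rw [Pi.single_eq_same, Pi.zero_apply] at h2
    haveI := t.isMaximal
    haveI : Nontrivial (C ⧸ t.asIdeal) := Ideal.Quotient.nontrivial_iff.2 t.isMaximal.ne_top
    exact zero_ne_one h2
  · intro s t hst
    apply e.injective
    rw [map_mul, hE, hE, map_zero]
    funext i
    rw [Pi.mul_apply, Pi.zero_apply]
    by_cases h : i = s
    · subst h
      rw [Pi.single_eq_of_ne hst, mul_zero]
    · rw [Pi.single_eq_of_ne h, zero_mul]
  · apply e.injective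
    rw [map_sum, map_one, Finset.sum_congr rfl fun t _ => hE t]
    exact Finset.univ_sum_single (1 : ∀ I : MaximalSpectrum C, C ⧸ I.asIdeal)
  · intro A t
    haveI := t.isMaximal
    letI : Field (C ⧸ t.asIdeal) := Ideal.Quotient.field t.asIdeal
    have hfin : Module.Finite F (C ⧸ t.asIdeal) := inferInstance
    have hsurj : Function.Surjective (algebraMap F (C ⧸ t.asIdeal)) := by
      haveI : Algebra.IsIntegral F (C ⧸ t.asIdeal) := inferInstance
      exact (IsAlgClosed.algebraMap_bijective_of_isIntegral (k := F)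
        (K := C ⧸ t.asIdeal)).surjective
    obtain ⟨c, hc⟩ := hsurj (Ideal.Quotient.mk t.asIdeal A)
    refine ⟨c, ?_⟩
    apply e.injective
    rw [Algebra.smul_def, map_mul, map_mul, hE]
    funext i
    rw [Pi.mul_apply, Pi.mul_apply]
    by_cases h : i = t
    · subst h
      rw [Pi.single_eq_same, mul_one, mul_one]
      exact hc.symm
    · rw [Pi.single_eq_of_ne h, mul_zero, mul_zero]

theorem idem {F : Type} [Field F] [IsAlgClosed F] {N : ℕ}
    (𝒞 : Subalgebra F (Matrix (Fin N) (Fin N) F)) (hcomm : ∀ A ∈ 𝒞, ∀ B ∈ 𝒞, A * B = B * A)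
    (hred : ∀ A ∈ 𝒞, IsNilpotent A → A = 0) :
    ∃ (T : Type) (_ : Fintype T) (E : T → Matrix (Fin N) (Fin N) F), (∀ t, E t ∈ 𝒞) ∧
      (∀ t, E t * E t = E t) ∧ (∀ t, E t ≠ 0) ∧ (∀ s t, s ≠ t → E s * E t = 0) ∧
      ∑ t, E t = 1 ∧ ∀ A ∈ 𝒞, ∀ t : T, ∃ c : F, A * E t = c • E t := by
  letI inst : CommRing 𝒞 :=
    { (inferInstance : Ring 𝒞) with mul_comm := fun a b => Subtype.ext (hcomm _ a.2 _ b.2) }
  haveI hfin : Module.Finite F 𝒞 := inferInstance
  haveI hr : IsReduced 𝒞 := ⟨fun x hx => by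
    apply Subtype.ext
    refine hred _ x.2 ?_
    obtain ⟨n, hn⟩ := hx
    exact ⟨n, by
      have := congrArg (Subtype.val) hn
      simpa using this⟩⟩
  obtain ⟨T, hT, E, h1, h2, h3, h4, h5⟩ := idemAbs F 𝒞
  refine ⟨T, hT, fun t => (E t : Matrix (Fin N) (Fin N) F), fun t => (E t).2, fun t => ?_,
    fun t h => h2 t (Subtype.ext h), fun s t hst => ?_, ?_, fun A hA t => ?_⟩
  · exact congrArg Subtype.val (h1 t)
  · exact congrArg Subtype.val (h3 s t hst)
  · have h6 : ((∑ t, E t : 𝒞) : Matrix (Fin N) (Fin N) F) = 1 := congrArg Subtype.val h4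
    rw [← h6]
    exact (map_sum 𝒞.val E Finset.univ).symm
  · obtain ⟨c, hc⟩ := h5 ⟨A, hA⟩ t
    exact ⟨c, congrArg Subtype.val hc⟩


/-- a basis adapted to the coefficients -/
structure Frm {F : Type} [Field F] {N : ℕ} (J : Matrix (Fin N) (Fin N) F)
    (𝒞 : Subalgebra F (Matrix (Fin N) (Fin N) F)) (n : ℕ) where
  T : Type
  fT : Fintype T
  dT : DecidableEq T
  E : T → Matrix (Fin N) (Fin N) F
  mem : ∀ t, E t ∈ 𝒞
  eig : ∀ A ∈ 𝒞, ∀ t, ∃ c : F, A * E t = c • E t
  S : Type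
  fS : Fintype S
  dS : DecidableEq S
  κ : S → T
  β : S → Fin N → F
  Eβ : ∀ t s, E t *ᵥ β s = if κ s = t then β s else 0
  co : S → (Fin N → F) → F
  full : ∀ v, v = ∑ s, co s v • β s
  Q : Matrix S S F
  hQ : ∀ a b, Q a b = bil J (β a) (β b)
  R : Matrix S S F
  QR : Q * R = 1
  many : ∀ t, n ≤ (Pool.Agent.TH125.Nod.blk κ t).card

attribute [instance] Frm.fS Frm.dS Frm.fT Frm.dT

theorem exists_frm {F : Type} [Field F] [IsAlgClosed F] {N n : ℕ}
    {J : Matrix (Fin N) (Fin N) F}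
    {𝒞 : Subalgebra F (Matrix (Fin N) (Fin N) F)} (hdet : J.det ≠ 0)
    (hcomm : ∀ A ∈ 𝒞, ∀ B ∈ 𝒞, A * B = B * A)
    (hred : ∀ A ∈ 𝒞, IsNilpotent A → A = 0)
    (hrank : ∀ e ∈ 𝒞, e * e = e → e ≠ 0 → n ≤ e.rank) : Nonempty (Frm J 𝒞 n) := by
  classical
  obtain ⟨T, hT, E, h0, h1, h2, h3, h4, h5⟩ := idem 𝒞 hcomm hred
  have hu : IsUnit J.det := isUnit_iff_ne_zero.2 hdet
  have hbsum : ∀ {ι : Type} (A : Finset ι) (x : Fin N → F) (f : ι → Fin N → F),
      bil J x (∑ i ∈ A, f i) = ∑ i ∈ A, bil J x (f i) := by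
    intro ι A x f
    unfold bil
    rw [Matrix.mulVec_sum, dotProduct_sum]
  have hbsmul : ∀ (c : F) x y, bil J x (c • y) = c * bil J x y := by
    intro c x y; unfold bil; rw [mulVec_smul, dotProduct_smul, smul_eq_mul]
  -- bases of the ranges
  let W : T → Submodule F (Fin N → F) := fun t => LinearMap.range (E t).mulVecLin
  let q : ∀ t, Module.Basis (Fin (Module.finrank F (W t))) F (W t) := fun t => Module.finBasis F (W t)
  have hW : ∀ t (x : W t), E t *ᵥ (x : Fin N → F) = x := by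
    rintro t ⟨_, w, rfl⟩
    change E t *ᵥ (E t *ᵥ w) = E t *ᵥ w
    rw [mulVec_mulVec, h1]
  have hW' : ∀ t s (x : W t), t ≠ s → E s *ᵥ (x : Fin N → F) = 0 := by
    rintro t s ⟨_, w, rfl⟩ hts
    change E s *ᵥ (E t *ᵥ w) = 0
    rw [mulVec_mulVec, h3 _ _ (Ne.symm hts), zero_mulVec]
  let S : Type := Σ t : T, Fin (Module.finrank F (W t))
  let β : S → Fin N → F := fun s => (q s.1 s.2 : Fin N → F)
  let pr : ∀ t, (Fin N → F) →ₗ[F] W t := fun t => (E t).mulVecLin.rangeRestrict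
  have hpr : ∀ t (w : Fin N → F), ((pr t w : W t) : Fin N → F) = E t *ᵥ w := fun t w => rfl
  let lf : S → (Fin N → F) →ₗ[F] F := fun s => ((q s.1).coord s.2).comp (pr s.1)
  have hex : ∀ s : S, ∃ u : Fin N → F, ∀ w, bil J w u = lf s w := by
    intro s
    refine ⟨J⁻¹ *ᵥ (fun i => lf s (Pi.single i 1)), fun w => ?_⟩
    unfold bil
    rw [mulVec_mulVec, Matrix.mul_nonsing_inv _ hu, one_mulVec]
    have h9 : w = ∑ i, w i • (Pi.single i 1 : Fin N → F) := by
      funext j
      simp [Finset.sum_apply, Pi.single_apply]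
    conv_rhs => rw [h9, map_sum]
    unfold dotProduct
    refine Finset.sum_congr rfl fun i _ => ?_
    rw [map_smul, smul_eq_mul]
  choose u hu' using hex
  have hEβ' : ∀ t (s : S), E t *ᵥ β s = if s.1 = t then β s else 0 := by
    intro t s
    split_ifs with h
    · rw [← h]; exact hW _ _
    · exact hW' _ _ _ h
  have hβ : ∀ s s' : S, lf s (β s') = if s = s' then 1 else 0 := by
    rintro ⟨t, i⟩ ⟨t', i'⟩
    by_cases h : t' = t
    · subst h
      change (q t').coord i (pr t' (q t' i' : Fin N → F)) = _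
      have e1 : pr t' (q t' i' : Fin N → F) = q t' i' := Subtype.ext (hW _ _)
      rw [e1, Module.Basis.coord_apply, Module.Basis.repr_self, Finsupp.single_apply]
      by_cases h' : i' = i
      · subst h'; simp
      · rw [if_neg h', if_neg]
        intro h''
        apply h'
        exact (eq_of_heq (Sigma.mk.inj_iff.1 h'').2).symm
    · change (q t).coord i (pr t (q t' i' : Fin N → F)) = _
      have e1 : pr t (q t' i' : Fin N → F) = 0 :=
        Subtype.ext (hW' _ _ _ h)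
      rw [e1, map_zero, if_neg]
      intro h''
      exact h (congrArg Sigma.fst h'').symm
  have hca : ∀ (t : T) (v : Fin N → F),
      E t *ᵥ v = ∑ i, lf ⟨t, i⟩ v • β ⟨t, i⟩ := by
    intro t v
    have e1 := (q t).sum_repr (pr t v)
    have e2 := congrArg (fun x : W t => (x : Fin N → F)) e1
    simp only [Submodule.coe_sum, Submodule.coe_smul, hpr] at e2
    rw [← e2]
    rfl
  have hfull : ∀ v : Fin N → F, v = ∑ s : S, lf s v • β s := by
    intro v
    rw [Fintype.sum_sigma, Finset.sum_congr rfl fun t _ => (hca t v).symm, ← Matrix.sum_mulVec, h4,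
      one_mulVec]
  refine ⟨⟨T, hT, Classical.decEq T, E, h0, h5, S, inferInstance, inferInstance,
    fun s => s.1, β, ?_, fun s v => lf s v, hfull, Matrix.of fun a b => bil J (β a) (β b),
    fun a b => rfl, Matrix.of fun a b => lf a (u b), ?_, ?_⟩⟩
  · intro t s
    rw [hEβ']
  · ext v w
    rw [Matrix.mul_apply]
    have e1 : ∑ p : S, bil J (β v) (β p) * lf p (u w) = lf w (β v) := by
      rw [← hu' w (β v)]
      conv_rhs => rw [hfull (u w)]
      rw [hbsum]
      refine Finset.sum_congr rfl fun p _ => ?_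
      rw [hbsmul, mul_comm]
    refine e1.trans ?_
    rw [hβ, Matrix.one_apply]
    by_cases h : v = w
    · rw [if_pos h, if_pos h.symm]
    · rw [if_neg h, if_neg (Ne.symm h)]
  · intro t
    have e1 : (Finset.univ.image (fun j : Fin (Module.finrank F (W t)) => (⟨t, j⟩ : S))) ⊆
        Pool.Agent.TH125.Nod.blk (fun s : S => s.1) t := by
      intro x hx
      rw [Finset.mem_image] at hx
      obtain ⟨j, _, rfl⟩ := hx
      rw [Pool.Agent.TH125.Nod.mem_blk]
    have e2 := Finset.card_le_card e1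
    rw [Finset.card_image_of_injective _ (by
      intro a b hab
      simpa using hab), Finset.card_univ, Fintype.card_fin] at e2
    have e3 := hrank _ (h0 t) (h1 t) (h2 t)
    have e4 : (E t).rank = Module.finrank F (W t) := rfl
    rw [e4] at e3
    refine (e3.trans e2).trans (le_of_eq ?_)
    congr!

section inv

open Pool.Agent.Y142.SU (FromHerm)
open Pool.Agent.Y142.SV (LieV Selfadj S_FFTV)
open Pool.Agent.Y100.ZS (mate mate_mate mate_ne mate_e0 mate_e1)
open Pool.Agent.Y155.ZI (Tσ Tσ_apply bil_toBilin)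
open Pool.Agent.TH125.Nod (blk Inv Sup gen Gen fft)

variable {F : Type} [Field F] {N n k : ℕ} {J : Matrix (Fin N) (Fin N) F}
    {𝒞 : Subalgebra F (Matrix (Fin N) (Fin N) F)}

/-- the products over the pairs and over the smaller slots agree up to sign -/
theorem prod_pairs {V : Type} {m : ℕ} (e : Fin m × Fin 2 ≃ Fin k) (b : V → V → F) (s : F)
    (hb : ∀ x y, b x y = s * b y x) : ∃ s' : F, ∀ v : Fin k → V,
      ∏ l, b (v (e (l, 0))) (v (e (l, 1))) =
        s' * ∏ j with j < mate e j, b (v j) (v (mate e j)) := by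
  classical
  refine ⟨∏ l : Fin m, if e (l, 0) < e (l, 1) then 1 else s, fun v => ?_⟩
  have h1 : ∏ j with j < mate e j, b (v j) (v (mate e j)) =
      ∏ l : Fin m, b (v (if e (l, 0) < e (l, 1) then e (l, 0) else e (l, 1)))
        (v (mate e (if e (l, 0) < e (l, 1) then e (l, 0) else e (l, 1)))) := by
    symm
    refine Finset.prod_bij (fun l _ => if e (l, 0) < e (l, 1) then e (l, 0) else e (l, 1))
      ?_ ?_ ?_ ?_
    · intro l _
      rw [Finset.mem_filter]
      refine ⟨Finset.mem_univ _, ?_⟩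
      split_ifs with h
      · rwa [mate_e0]
      · rw [mate_e1]
        refine lt_of_le_of_ne (not_lt.1 h) ?_
        intro h'
        have := e.injective h'
        simp at this
    · intro l _ l' _ h
      have h2 := congrArg (fun x => (e.symm x).1) h
      have h3 : ∀ l : Fin m, (e.symm (if e (l, 0) < e (l, 1) then e (l, 0) else e (l, 1))).1 = l := by
        intro l
        split_ifs <;> rw [Equiv.symm_apply_apply]
      rwa [h3, h3] at h2
    · intro j hj
      rw [Finset.mem_filter] at hj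
      refine ⟨(e.symm j).1, Finset.mem_univ _, ?_⟩
      obtain ⟨⟨l, i⟩, rfl⟩ := e.surjective j
      rw [Equiv.symm_apply_apply]
      fin_cases i
      · have := hj.2
        change e (l, 0) < mate e (e (l, 0)) at this
        rw [mate_e0] at this
        simp only [this, if_true]
        rfl
      · have := hj.2
        change e (l, 1) < mate e (e (l, 1)) at this
        rw [mate_e1] at this
        simp only [not_lt.2 this.le, if_false]
        rfl
    · intro l _
      rfl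
  rw [h1, ← Finset.prod_mul_distrib]
  refine Finset.prod_congr rfl fun l _ => ?_
  split_ifs with h
  · rw [mate_e0, one_mul]
  · rw [mate_e1, hb (v (e (l, 0)))]

theorem bil_s {s : F} (hJ : Jᵀ = s • J) (x y : Fin N → F) : bil J x y = s * bil J y x := by
  unfold bil
  rw [dotProduct_mulVec, ← mulVec_transpose, hJ, smul_mulVec, smul_dotProduct, dotProduct_comm,
    smul_eq_mul]

/-- the elementary maps of the Lie algebra -/
def sw (s : F) (J : Matrix (Fin N) (Fin N) F) (u v : Fin N → F) : Matrix (Fin N) (Fin N) F :=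
  vecMulVec v (u ᵥ* J) - s • vecMulVec u (v ᵥ* J)

theorem sw_mulVec (s : F) (J : Matrix (Fin N) (Fin N) F) (u v x : Fin N → F) :
    sw s J u v *ᵥ x = bil J u x • v - (s * bil J v x) • u := by
  unfold sw bil
  rw [sub_mulVec, smul_mulVec, vecMulVec_mulVec, vecMulVec_mulVec, ← dotProduct_mulVec,
    ← dotProduct_mulVec]
  simp [op_smul_eq_smul, smul_smul]

theorem sw_lie {s : F} (hs : s * s = 1) (hJ : Jᵀ = s • J) (u v : Fin N → F) :
    (sw s J u v)ᵀ * J + J * sw s J u v = 0 := by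
  unfold sw
  have h : ∀ c : Fin N → F, J *ᵥ c = s • (c ᵥ* J) := by
    intro c
    rw [← mulVec_transpose, hJ, smul_mulVec, smul_smul, hs, one_smul]
  rw [transpose_sub, transpose_smul, transpose_vecMulVec, transpose_vecMulVec, Matrix.sub_mul,
    Matrix.mul_sub, Matrix.smul_mul, Matrix.mul_smul, Matrix.vecMulVec_mul, Matrix.vecMulVec_mul,
    Matrix.mul_vecMulVec, Matrix.mul_vecMulVec, h u, h v, smul_vecMulVec, smul_vecMulVec,
    smul_smul, hs, one_smul]
  abel

variable (Φ : Frm J 𝒞 n)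

theorem Frm.act {A : Matrix (Fin N) (Fin N) F} {a : Φ.T → F}
    (h : ∀ t, A * Φ.E t = a t • Φ.E t) (x : Φ.S) :
    A *ᵥ Φ.β x = a (Φ.κ x) • Φ.β x := by
  have h1 : Φ.E (Φ.κ x) *ᵥ Φ.β x = Φ.β x := by rw [Φ.Eβ, if_pos rfl]
  calc A *ᵥ Φ.β x = A *ᵥ (Φ.E (Φ.κ x) *ᵥ Φ.β x) := by rw [h1]
    _ = a (Φ.κ x) • Φ.β x := by rw [mulVec_mulVec, h, smul_mulVec, h1]

theorem Frm.sw_mem {s : F} (hs : s * s = 1) (hJ : Jᵀ = s • J)
    (hadj : ∀ A ∈ 𝒞, Aᵀ * J = J * A) (b c : Φ.S) (hbc : Φ.κ b = Φ.κ c) :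
    LieV J 𝒞 (sw s J (Φ.β b) (Φ.β c)) := by
  refine ⟨fun A hA => ?_, sw_lie hs hJ _ _⟩
  choose a ha using Φ.eig A hA
  have hL : ∀ x : Φ.S, (Φ.β x ᵥ* J) ᵥ* A = a (Φ.κ x) • (Φ.β x ᵥ* J) := by
    intro x
    rw [vecMul_vecMul, ← hadj A hA, ← vecMul_vecMul, vecMul_transpose, Φ.act ha, smul_vecMul]
  unfold sw
  rw [Matrix.sub_mul, Matrix.mul_sub, Matrix.smul_mul, Matrix.mul_smul, Matrix.vecMulVec_mul,
    Matrix.vecMulVec_mul, Matrix.mul_vecMulVec, Matrix.mul_vecMulVec, hL, hL, Φ.act ha, Φ.act ha,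
    hbc, vecMulVec_smul, vecMulVec_smul, smul_vecMulVec, smul_vecMulVec]

theorem Frm.br_zero {s : F} (hs : s * s = 1) (hJ : Jᵀ = s • J)
    (hadj : ∀ A ∈ 𝒞, Aᵀ * J = J * A)
    (φ : MultilinearMap F (fun _ : Fin k => Fin N → F) F)
    (hφ : ∀ X, LieV J 𝒞 X → ∀ v : Fin k → Fin N → F,
      ∑ j, φ (Function.update v j (X *ᵥ v j)) = 0)
    (b c : Φ.S) (hbc : Φ.κ b = Φ.κ c) (I : Fin k → Φ.S) :
    ∑ j, (Φ.Q b (I j) * φ (fun i => Φ.β (Function.update I j c i)) -
        (s * Φ.Q c (I j)) * φ (fun i => Φ.β (Function.update I j b i))) = 0 := by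
  classical
  rw [← hφ _ (Φ.sw_mem hs hJ hadj b c hbc) (fun j => Φ.β (I j))]
  refine Finset.sum_congr rfl fun j _ => ?_
  rw [sw_mulVec, MultilinearMap.map_update_sub, MultilinearMap.map_update_smul,
    MultilinearMap.map_update_smul, Φ.hQ, Φ.hQ]
  have h2 : ∀ x : Φ.S, Function.update (fun j => Φ.β (I j)) j (Φ.β x) =
      fun i => Φ.β (Function.update I j x i) := by
    intro x
    exact (Function.comp_update (fun y => Φ.β y) I j x).symm
  rw [h2, h2, smul_eq_mul, smul_eq_mul]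

theorem Frm.Qb (hadj : ∀ A ∈ 𝒞, Aᵀ * J = J * A) (a b : Φ.S) (h : Φ.κ a ≠ Φ.κ b) :
    Φ.Q a b = 0 := by
  rw [Φ.hQ]
  have h1 : Φ.E (Φ.κ a) *ᵥ Φ.β a = Φ.β a := by rw [Φ.Eβ, if_pos rfl]
  have h2 : Φ.E (Φ.κ a) *ᵥ Φ.β b = 0 := by rw [Φ.Eβ, if_neg (Ne.symm h)]
  unfold bil
  rw [← h1, ← vecMul_transpose, ← dotProduct_mulVec, mulVec_mulVec, hadj _ (Φ.mem _),
    ← mulVec_mulVec, h2, mulVec_zero, dotProduct_zero]

theorem Frm.ext_ml (φ ψ : MultilinearMap F (fun _ : Fin k => Fin N → F) F)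
    (h : ∀ I : Fin k → Φ.S, φ (fun j => Φ.β (I j)) = ψ (fun j => Φ.β (I j))) : φ = ψ := by
  classical
  have key : ∀ (χ : MultilinearMap F (fun _ : Fin k => Fin N → F) F) (v : Fin k → Fin N → F),
      χ v = ∑ I : Fin k → Φ.S, (∏ j, Φ.co (I j) (v j)) • χ (fun j => Φ.β (I j)) := by
    intro χ v
    have e1 : v = fun j => ∑ y : Φ.S, Φ.co y (v j) • Φ.β y := by
      funext j
      exact Φ.full (v j)
    conv_lhs => rw [e1]
    rw [MultilinearMap.map_sum]
    refine Finset.sum_congr rfl fun I _ => ?_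
    rw [MultilinearMap.map_smul_univ]
  refine MultilinearMap.ext fun v => ?_
  rw [key φ, key ψ]
  exact Finset.sum_congr rfl fun I _ => by rw [h]

open Classical in
/-- the part of type `τ` -/
noncomputable def typ {R Q : Type} (cls : R → Q) (τ : Fin k → Q) (G : (Fin k → R) → F) :
    (Fin k → R) → F := fun I => if ∀ j, cls (I j) = τ j then G I else 0

theorem sum_typ {R Q : Type} [Fintype Q] (cls : R → Q) (G : (Fin k → R) → F) :
    ∑ τ : Fin k → Q, typ cls τ G = G := by
  classical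
  funext I
  rw [Finset.sum_apply, Finset.sum_eq_single (fun l => cls (I l))]
  · unfold typ
    rw [if_pos fun _ => rfl]
  · intro τ _ hτ
    unfold typ
    rw [if_neg]
    intro h
    exact hτ (funext fun l => (h l).symm)
  · intro h
    exact absurd (Finset.mem_univ _) h

theorem Frm.typ_inv {s : F} (hs : s * s = 1) (hJ : Jᵀ = s • J)
    (hadj : ∀ A ∈ 𝒞, Aᵀ * J = J * A)
    (φ : MultilinearMap F (fun _ : Fin k => Fin N → F) F)
    (hφ : ∀ X, LieV J 𝒞 X → ∀ v : Fin k → Fin N → F,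
      ∑ j, φ (Function.update v j (X *ᵥ v j)) = 0) (τ : Fin k → Φ.T) :
    Inv Φ.κ Φ.Q (fun _ => s) (typ Φ.κ τ (fun I => φ (fun j => Φ.β (I j)))) := by
  classical
  have hty : ∀ (I : Fin k → Φ.S) (j : Fin k) (y : Φ.S), Φ.κ y = Φ.κ (I j) →
      ((∀ l, Φ.κ (Function.update I j y l) = τ l) ↔ ∀ l, Φ.κ (I l) = τ l) := by
    intro I j y hy
    refine forall_congr' fun l => ?_
    by_cases h : l = j
    · subst h
      rw [Function.update_self, hy]
    · rw [Function.update_of_ne h]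
  have hone : ∀ (b c : Φ.S) (_ : Φ.κ c = Φ.κ b) (I : Fin k → Φ.S) (j : Fin k),
      Φ.Q b (I j) * typ Φ.κ τ (fun I => φ (fun j => Φ.β (I j))) (Function.update I j c) =
        (if ∀ l, Φ.κ (I l) = τ l then 1 else 0) *
          (Φ.Q b (I j) * φ (fun i => Φ.β (Function.update I j c i))) := by
    intro b c hcb I j
    by_cases h : Φ.κ b = Φ.κ (I j)
    · unfold typ
      have h3 := hty I j c (by rw [hcb, h])
      by_cases h4 : ∀ l, Φ.κ (I l) = τ l
      · rw [if_pos (h3.2 h4), if_pos h4, one_mul]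
      · rw [if_neg (fun h5 => h4 (h3.1 h5)), if_neg h4, mul_zero, zero_mul]
    · rw [Φ.Qb hadj _ _ h, zero_mul, zero_mul, mul_zero]
  intro u v huv I
  have e1 := Φ.br_zero hs hJ hadj φ hφ v u huv.symm I
  have e2 : ∀ j, (Φ.Q v (I j) • typ Φ.κ τ (fun I => φ (fun j => Φ.β (I j)))
        (Function.update I j u) - (s * Φ.Q u (I j)) •
        typ Φ.κ τ (fun I => φ (fun j => Φ.β (I j))) (Function.update I j v)) =
      (if ∀ l, Φ.κ (I l) = τ l then 1 else 0) *
        (Φ.Q v (I j) * φ (fun i => Φ.β (Function.update I j u i)) -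
        (s * Φ.Q u (I j)) * φ (fun i => Φ.β (Function.update I j v i))) := by
    intro j
    rw [smul_eq_mul, smul_eq_mul, hone v u huv I j, mul_assoc, hone u v huv.symm I j]
    ring
  rw [Finset.sum_congr rfl fun j _ => e2 j, ← Finset.mul_sum, e1, mul_zero]

/-- the multilinear form of a matching with types -/
noncomputable def TT {m : ℕ} (e : Fin m × Fin 2 ≃ Fin k) (c : Fin k → Φ.T) :
    MultilinearMap F (fun _ : Fin k => Fin N → F) F :=
  (Tσ (Matrix.toBilin' J) (mate e) (mate_mate e) (mate_ne e)).compLinearMap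
    (fun j => (Φ.E (c j)).mulVecLin)

theorem TT_apply {m : ℕ} (e : Fin m × Fin 2 ≃ Fin k) (c : Fin k → Φ.T)
    (v : Fin k → Fin N → F) : TT Φ e c v =
      ∏ j with j < mate e j, bil J (Φ.E (c j) *ᵥ v j) (Φ.E (c (mate e j)) *ᵥ v (mate e j)) := by
  unfold TT
  rw [MultilinearMap.compLinearMap_apply, Tσ_apply]
  refine Finset.prod_congr rfl fun j _ => ?_
  rw [bil_toBilin]
  rfl

theorem TT_gen {s : F} (hJ : Jᵀ = s • J) {m : ℕ} (e : Fin m × Fin 2 ≃ Fin k)
    (c : Fin k → Φ.T) (w : F) :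
    ∃ s' : F, ∀ I : Fin k → Φ.S,
      gen Φ.κ Φ.Q c e w I = s' * TT Φ e c (fun j => Φ.β (I j)) := by
  classical
  obtain ⟨s', hs'⟩ := prod_pairs e (fun a b : Fin N → F => bil J a b) s (bil_s hJ)
  refine ⟨w * s', fun I => ?_⟩
  rw [TT_apply, mul_assoc, ← hs' (fun j => Φ.E (c j) *ᵥ Φ.β (I j))]
  unfold gen
  by_cases h : ∀ j, Φ.κ (I j) = c j
  · rw [if_pos h, smul_eq_mul, mul_comm]
    congr 1
    refine Finset.prod_congr rfl fun l _ => ?_
    rw [Φ.Eβ, Φ.Eβ, if_pos (h _), if_pos (h _), Φ.hQ]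
  · rw [if_neg h]
    push Not at h
    obtain ⟨j, hj⟩ := h
    have h0 : Φ.E (c j) *ᵥ Φ.β (I j) = 0 := by rw [Φ.Eβ, if_neg hj]
    obtain ⟨⟨l, i⟩, rfl⟩ := e.surjective j
    have hz : bil J (Φ.E (c (e (l, 0))) *ᵥ Φ.β (I (e (l, 0))))
        (Φ.E (c (e (l, 1))) *ᵥ Φ.β (I (e (l, 1)))) = 0 := by
      have hi : i = 0 ∨ i = 1 := by fin_cases i <;> simp
      rcases hi with rfl | rfl
      · rw [h0]
        unfold bil
        rw [zero_dotProduct]
      · rw [h0]
        unfold bil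
        rw [mulVec_zero, dotProduct_zero]
    rw [Finset.prod_eq_zero (Finset.mem_univ l) hz, mul_zero]

theorem TT_from (hadj : ∀ A ∈ 𝒞, Aᵀ * J = J * A) {m : ℕ} (e : Fin m × Fin 2 ≃ Fin k)
    (c : Fin k → Φ.T) : (fun v => TT Φ e c v) ∈ FromHerm J 𝒞 k := by
  refine Submodule.subset_span ⟨Function.Involutive.toPerm (mate e) (mate_mate e),
    fun j => Φ.E (c (mate e j)) * Φ.E (c j),
    mate_mate e, mate_ne e, fun j => 𝒞.mul_mem (Φ.mem _) (Φ.mem _), fun v => ?_⟩
  change TT Φ e c v = _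
  rw [TT_apply]
  refine Finset.prod_congr rfl fun j _ => ?_
  change _ = ((Φ.E (c (mate e j)) * Φ.E (c j)) *ᵥ v j) ⬝ᵥ J *ᵥ v (mate e j)
  unfold bil
  rw [mulVec_mulVec, ← hadj _ (Φ.mem _), ← mulVec_mulVec, dotProduct_mulVec, vecMul_transpose,
    mulVec_mulVec]

include Φ in
/-- the theorem for a frame -/
theorem main1 [CharZero F] {z : ℤ} (hz : z = 1 ∨ z = -1) (hJ : Jᵀ = (z : F) • J)
    (hadj : ∀ A ∈ 𝒞, Aᵀ * J = J * A) (hk : z = 1 → k < n)
    (φ : MultilinearMap F (fun _ : Fin k => Fin N → F) F)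
    (hφ : ∀ X, LieV J 𝒞 X → ∀ v : Fin k → Fin N → F,
      ∑ j, φ (Function.update v j (X *ᵥ v j)) = 0) :
    (fun v => φ v) ∈ FromHerm J 𝒞 k := by
  classical
  have hs : (z : F) * (z : F) = 1 := by
    rcases hz with h | h <;> rw [h] <;> norm_num
  let evq : MultilinearMap F (fun _ : Fin k => Fin N → F) F →ₗ[F]
      ((Fin k → Φ.S) → F) :=
    { toFun := fun T I => T (fun j => Φ.β (I j))
      map_add' := fun _ _ => rfl
      map_smul' := fun _ _ => rfl }
  have hinj : Function.Injective evq := fun T T' h => Φ.ext_ml T T' fun I => congrFun h I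
  let eve : MultilinearMap F (fun _ : Fin k => Fin N → F) F →ₗ[F] ((Fin k → Fin N → F) → F) :=
    { toFun := fun T v => T v
      map_add' := fun _ _ => rfl
      map_smul' := fun _ _ => rfl }
  let GG : Set (MultilinearMap F (fun _ : Fin k => Fin N → F) F) :=
    {T | ∃ (m : ℕ) (e : Fin m × Fin 2 ≃ Fin k) (c : Fin k → Φ.T), T = TT Φ e c}
  have h2 : evq φ ∈ (Submodule.span F GG).map evq := by
    have e0 : evq φ = fun I : Fin k → Φ.S => φ (fun j => Φ.β (I j)) := rfl
    rw [e0, ← sum_typ Φ.κ (fun I : Fin k → Φ.S => φ (fun j => Φ.β (I j)))]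
    refine Submodule.sum_mem _ fun τ _ => ?_
    have hkey := fft (K := F) (B := Φ.S) (ι := Φ.T) (M := F) (κ := Φ.κ) (Q := Φ.Q) (R := Φ.R)
      (s := fun _ => z) (fun _ => hz) (fun a b h => Φ.Qb hadj a b h)
      (fun a b => by rw [Φ.hQ, Φ.hQ]; exact bil_s hJ _ _) Φ.QR k (Fin k) τ
      (typ Φ.κ τ (fun I => φ (fun j => Φ.β (I j)))) (Fintype.card_fin k)
      (fun I hI => if_neg hI)
      (Φ.typ_inv hs hJ hadj φ hφ τ) (fun i hi => by
        refine lt_of_le_of_lt ?_ ((hk hi).trans_le (Φ.many i))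
        refine (Finset.card_le_univ _).trans (le_of_eq ?_)
        exact Fintype.card_fin k)
    have hle : Gen (M := F) Φ.κ Φ.Q τ ≤ (Submodule.span F GG).map evq := by
      unfold Gen
      rw [Submodule.span_le]
      rintro _ ⟨m, e, w, rfl⟩
      obtain ⟨s', hs'⟩ := TT_gen Φ hJ e τ w
      refine ⟨s' • TT Φ e τ, Submodule.smul_mem _ _ (Submodule.subset_span ⟨m, e, τ, rfl⟩), ?_⟩
      funext I
      exact (hs' I).symm
    exact hle hkey
  obtain ⟨T, hT, hT'⟩ := h2
  have h3 : φ ∈ Submodule.span F GG := by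
    rw [← hinj hT']
    exact hT
  have h4 : eve φ ∈ (Submodule.span F GG).map eve := Submodule.mem_map_of_mem h3
  rw [Submodule.map_span] at h4
  refine Submodule.span_le.2 ?_ h4
  rintro _ ⟨_, ⟨m, e, c, rfl⟩, rfl⟩
  exact TT_from Φ hadj e c

theorem t : S_FFTV := by
  classical
  intro F _ _ _ N n J 𝒞 hH hred hrank k φ hk hφ
  obtain ⟨hsym, hdet, hcomm, hadj⟩ := hH
  obtain ⟨Φ⟩ := exists_frm (n := n) hdet hcomm hred hrank
  by_cases h : Jᵀ = -J
  · refine main1 Φ (z := -1) (Or.inr rfl) ?_ hadj (fun h1 => by norm_num at h1) φ hφ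
    rw [h]
    push_cast
    rw [neg_smul, one_smul]
  · refine main1 Φ (z := 1) (Or.inl rfl) ?_ hadj (fun _ => hk.resolve_right h) φ hφ
    rw [hsym.resolve_right h]
    push_cast
    rw [one_smul]

end inv

end Pool.Agent.Y710.SV
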